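import Pool.Agent.helper81.NW.Spec

/-!
# Project NW (MP_133bfc_co): row CLW

The two gaps are on different faces at `y`.
-/

set_option autoImplicit false

namespace Pool.Agent.helper81.NW

open Pool.Agent.helper84.NR
open scoped Classical
open Finset

/-- From an edge of a face at `x` with a face in the class to a gap of a face at `y` through the same vertex. -/
theorem CLW_gap (hWDN : WDN_stmt) (hVXW : VXW_stmt) {V F : Type} [Fintype V] [Fintype F]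
    (M : PMap V F) (x y : V) (hne : ∀ f, ¬ (OnV M.toCyc f x ∧ OnV M.toCyc f y)) (g0 : F)
    (hg0 : oth M x y g0) (v : V) (hv : shv M x y v) (e : Sym2 V) (hve : v ∈ e) (hxe : x ∉ e)
    (hon : onF M x e) (hg : ∃ g, OnE M.toCyc g e ∧ CL M x y g g0) :
    ∃ c ∈ gps M x y, OnV M.toCyc c.1 y ∧ OnV M.toCyc c.1 v ∧
      ∃ g, OnE M.toCyc g (ge M y c) ∧ CL M x y g g0 := by
  obtain ⟨B, k, g, hBy, hk, hvk, hnx, hgE, hgC⟩ :=
    hVXW V F M x y hne g0 hg0 v hv e hve hxe hon hg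
  have hgB : g ≠ B := by
    intro h
    rw [h] at hgC
    exact hg0.2 B hBy hgC
  obtain ⟨k1, -, -, hgp, g', -, hg'E, hg'C⟩ := hWDN V F M x y hne B hBy k hk hnx g hgB hgE
  have hBv : OnV M.toCyc B v := by
    rcases Sym2.mem_iff.mp hvk with h | h
    · exact ⟨st M y B + k, h.symm⟩
    · exact ⟨st M y B + (k + 1), h.symm⟩
  refine ⟨⟨B, k1⟩, ?_, hBy, hBv, g', hg'E, hg'C.trans hgC⟩
  unfold gps gaps
  rw [mem_sigma]
  constructor
  · obtain ⟨⟨A, hAx, hAv⟩, -⟩ := hv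
    unfold FA
    rw [mem_filter]
    exact ⟨mem_univ _, hBy, A, v, hAx, hBv, hAv⟩
  · rw [mem_filter, mem_range]
    exact ⟨hgp.1.2.1, hgp⟩

theorem CLW (hIDX : IDX_stmt) (hWW0 : WW0_stmt) (hSYW : SYW_stmt) (hWDN : WDN_stmt)
    (hWUP : WUP_stmt) (hVXW : VXW_stmt) (hAED : AED_stmt) : CLW_stmt := by
  intro V F _ _ M x y hne g0 hg0
  have hne' : ∀ f, ¬ (OnV M.toCyc f y ∧ OnV M.toCyc f x) := fun f h => hne f ⟨h.2, h.1⟩
  obtain ⟨A, i, g, hAx, hi, hny, hgE, hgC⟩ := hAED V F M x y hne g0 hg0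
  have hgA : g ≠ A := by
    intro h
    rw [h] at hgC
    exact hg0.1 A hAx hgC
  obtain ⟨i1, hi1i, hdn, hgp, g1, -, hg1E, hg1C⟩ := hWDN V F M y x hne' A hAx i hi hny g hgA hgE
  obtain ⟨i2, hii2, hsh2, hup, g2, -, hg2E, hg2C⟩ := hWUP V F M y x hne' A hAx i hi hny g hgA hgE
  have hg1 : CL M x y g1 g0 := ((hSYW V F M x y).2.1 g1 g).mpr hg1C |>.trans hgC
  have hg2 : CL M x y g2 g0 := ((hSYW V F M x y).2.1 g2 g).mpr hg2C |>.trans hgC
  have hsh1 : sh M y x A i1 := hgp.1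
  have h11 : 1 ≤ i1 := hsh1.1
  have h2n : i2 < M.len A := hsh2.2.1
  have h0 := (hWW0 V F M x A hAx).1
  obtain ⟨hinj, -, -, hadj, -⟩ := hIDX V F M.toCyc A (st M x A)
  have hux : ∀ j, 1 ≤ j → j < M.len A → ww M x A j ≠ x := by
    intro j h1 h2 h
    have h3 : M.bd A (st M x A + j) = M.bd A (st M x A + 0) := h.trans h0.symm
    have := hinj j 0 h2 (by omega) h3
    omega
  have hv12 : ww M x A i1 ≠ ww M x A i2 := by
    intro h
    have := hinj i1 i2 (by omega) h2n h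
    omega
  have hxe : ∀ j, 1 ≤ j → j + 1 < M.len A → x ∉ s(ww M x A j, ww M x A (j + 1)) := by
    intro j h1 h2 h
    rcases Sym2.mem_iff.mp h with h | h
    · exact hux j h1 (by omega) h.symm
    · exact hux (j + 1) (by omega) h2 h.symm
  have hon : ∀ j, OnE M.toCyc A s(ww M x A j, ww M x A (j + 1)) := fun j => ⟨st M x A + j, rfl⟩
  have hshv : ∀ j, sh M y x A j → shv M x y (ww M x A j) := by
    rintro j ⟨_, _, B, hBy, hBj⟩
    exact ⟨⟨A, hAx, st M x A + j, rfl⟩, B, hBy, hBj⟩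
  obtain ⟨c1, hc1, hc1y, hc1v, hc1g⟩ := CLW_gap hWDN hVXW M x y hne g0 hg0 (ww M x A i1)
    (hshv i1 hsh1) s(ww M x A i1, ww M x A (i1 + 1)) (Sym2.mem_mk_left _ _)
    (hxe i1 h11 (by omega)) ⟨A, hAx, hon i1⟩ ⟨g1, hg1E, hg1⟩
  obtain ⟨m, hm⟩ : ∃ m, i2 = m + 1 := ⟨i2 - 1, by omega⟩
  have hg2E' : OnE M.toCyc g2 s(ww M x A m, ww M x A (m + 1)) := by
    have : i2 - 1 = m := by omega
    rw [this, hm] at hg2E
    exact hg2E
  obtain ⟨c2, hc2, hc2y, hc2v, hc2g⟩ := CLW_gap hWDN hVXW M x y hne g0 hg0 (ww M x A i2)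
    (hshv i2 hsh2) s(ww M x A m, ww M x A (m + 1)) (by rw [hm]; exact Sym2.mem_mk_right _ _)
    (hxe m (by omega) (by omega)) ⟨A, hAx, hon m⟩ ⟨g2, hg2E', hg2⟩
  refine ⟨c1, hc1, c2, hc2, ?_, hc1g, hc2g⟩
  intro hcc
  rw [← hcc] at hc2v
  have hAB : A ≠ c1.1 := by
    intro h
    exact hne A ⟨hAx, h ▸ hc1y⟩
  obtain ⟨hpA, hpB, -⟩ := M.poly A c1.1 hAB _ _ hv12 ⟨st M x A + i1, rfl⟩
    ⟨st M x A + i2, rfl⟩ hc1v hc2v
  have h12 : i2 = i1 + 1 := by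
    rcases hadj i1 i2 (by omega) h2n hpA with h | h
    · exact h
    · omega
  have hii : i = i1 := by omega
  apply hny
  refine ⟨c1.1, hc1y, ?_⟩
  rw [hii, ← h12]
  exact hpB

end Pool.Agent.helper81.NW
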